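import Pool.Agent.H958R4.Defs

/-! TASK A of helper958: the power series algebra for the closed formula for homeomorphically
irreducible graphs. -/

namespace Pool.Agent.H167R3.A958

open Pool.Agent.H958R4 Finset

/-- Euler operator `y d/dy`. -/
noncomputable def th (f : PS) : PS :=
  PowerSeries.mk fun n => (n : Polynomial ℚ) * PowerSeries.coeff n f

lemma coeff_th (n : ℕ) (f : PS) :
    PowerSeries.coeff n (th f) = (n : Polynomial ℚ) * PowerSeries.coeff n f := by
  simp [th]

lemma th_add (f g : PS) : th (f + g) = th f + th g := by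
  ext1 n
  simp [coeff_th, mul_add]

lemma th_neg (f : PS) : th (-f) = -th f := by
  ext1 n
  simp [coeff_th]

lemma th_sub (f g : PS) : th (f - g) = th f - th g := by
  ext1 n
  simp [coeff_th, mul_sub]

lemma th_smul (q : ℚ) (f : PS) : th (q • f) = q • th f := by
  ext1 n
  simp [coeff_th]

lemma th_mul (f g : PS) : th (f * g) = th f * g + f * th g := by
  ext1 n
  rw [coeff_th, map_add, PowerSeries.coeff_mul, PowerSeries.coeff_mul, PowerSeries.coeff_mul,
    ← Finset.sum_add_distrib, Finset.mul_sum]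
  refine Finset.sum_congr rfl fun p hp => ?_
  rw [coeff_th, coeff_th]
  have h : p.1 + p.2 = n := by simpa using hp
  have h2 : (n : Polynomial ℚ) = (p.1 : Polynomial ℚ) + (p.2 : Polynomial ℚ) := by
    rw [← h]; push_cast; rfl
  rw [h2]; ring

lemma th_C (r : Polynomial ℚ) : th (PowerSeries.C r) = 0 := by
  ext1 n
  rw [coeff_th, PowerSeries.coeff_C]
  by_cases h : n = 0
  · simp [h]
  · simp [h]

lemma th_one : th 1 = 0 := by
  have := th_C 1
  simpa using this

lemma th_natCast (k : ℕ) : th (k : PS) = 0 := by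
  have := th_C (k : Polynomial ℚ)
  simpa using this

lemma th_xx_pow (k : ℕ) : th (xx ^ k) = 0 := by
  have := th_C ((Polynomial.X : Polynomial ℚ) ^ k)
  simpa [xx] using this

lemma th_yy_pow (k : ℕ) : th (yy ^ k) = (k : PS) * yy ^ k := by
  ext1 n
  have h : (k : PS) = PowerSeries.C (k : Polynomial ℚ) := by simp
  rw [coeff_th, h, PowerSeries.coeff_C_mul]
  unfold yy
  rw [PowerSeries.coeff_X_pow]
  by_cases hn : n = k
  · simp [hn]
  · simp [hn]

lemma th_ev (a : ℕ) : th (ev a) = 0 := by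
  unfold ev
  split_ifs
  · exact th_one
  · ext1 n; simp [coeff_th]

lemma coeff_xx_yy_mul (a n : ℕ) (f : PS) :
    PowerSeries.coeff n (xx ^ a * yy ^ a * f) =
      if a ≤ n then Polynomial.X ^ a * PowerSeries.coeff (n - a) f else 0 := by
  have h : xx ^ a = PowerSeries.C ((Polynomial.X : Polynomial ℚ) ^ a) := by simp [xx]
  rw [h, mul_assoc, PowerSeries.coeff_C_mul]
  unfold yy
  rw [PowerSeries.coeff_X_pow_mul']
  split_ifs <;> simp

lemma geo_mul (a : ℕ) (ha : 1 ≤ a) : geo a * (1 + xx ^ a * yy ^ a) = 1 := by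
  rw [mul_comm, add_mul, one_mul]
  ext1 n
  rw [map_add, coeff_xx_yy_mul, PowerSeries.coeff_one]
  unfold geo
  rw [PowerSeries.coeff_mk, PowerSeries.coeff_mk]
  by_cases h0 : n = 0
  · subst h0
    have : ¬ (a ≤ 0) := by omega
    simp [this]
  · rw [if_neg h0]
    by_cases hd : a ∣ n
    · obtain ⟨k, rfl⟩ := hd
      have hk : k ≠ 0 := by rintro rfl; simp at h0
      obtain ⟨j, rfl⟩ := Nat.exists_eq_succ_of_ne_zero hk
      have h1 : a ≤ a * (j + 1) := Nat.le_mul_of_pos_right a (Nat.succ_pos j)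
      have h2 : a * (j + 1) - a = a * j := by
        rw [Nat.mul_succ]; omega
      have h3 : a * (j + 1) / a = j + 1 := Nat.mul_div_cancel_left _ (by omega)
      have h4 : a * j / a = j := Nat.mul_div_cancel_left _ (by omega)
      simp only [Nat.succ_eq_add_one] at *
      rw [if_pos (Dvd.intro _ rfl), if_pos h1, h2, if_pos (Dvd.intro _ rfl), h3, h4]
      ring
    · rw [if_neg hd]
      split_ifs with h1 h2
      · exfalso
        apply hd
        have := (Nat.dvd_sub_iff_left h1 (dvd_refl a)).1 h2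
        exact this
      · simp
      · simp

lemma th_geo (a : ℕ) (ha : 1 ≤ a) :
    th (geo a) = - ((a : PS) * (xx ^ a * yy ^ a) * geo a ^ 2) := by
  have h1 := geo_mul a ha
  have h2 : th (geo a * (1 + xx ^ a * yy ^ a)) = 0 := by rw [h1, th_one]
  rw [th_mul, th_add, th_one, th_mul, th_xx_pow, th_yy_pow] at h2
  linear_combination (geo a) * h2 - (th (geo a)) * h1

lemma th_logS (a : ℕ) (ha : 1 ≤ a) :
    th (logS a) = (a : PS) * (xx ^ a * yy ^ a * geo a) := by
  ext1 n
  have h : (a : PS) = PowerSeries.C (a : Polynomial ℚ) := by simp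
  rw [coeff_th, h, PowerSeries.coeff_C_mul, coeff_xx_yy_mul]
  unfold logS geo
  rw [PowerSeries.coeff_mk, PowerSeries.coeff_mk]
  by_cases h0 : n = 0
  · subst h0
    have : ¬ (a ≤ 0) := by omega
    simp [this]
  · by_cases hd : a ∣ n
    · obtain ⟨k, rfl⟩ := hd
      have hk : k ≠ 0 := by rintro rfl; simp at h0
      obtain ⟨j, rfl⟩ := Nat.exists_eq_succ_of_ne_zero hk
      simp only [Nat.succ_eq_add_one] at *
      have h1 : a ≤ a * (j + 1) := Nat.le_mul_of_pos_right a (Nat.succ_pos j)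
      have h2 : a * (j + 1) - a = a * j := by
        rw [Nat.mul_succ]; omega
      have h3 : a * (j + 1) / a = j + 1 := Nat.mul_div_cancel_left _ (by omega)
      have h4 : a * j / a = j := Nat.mul_div_cancel_left _ (by omega)
      rw [if_pos ⟨Dvd.intro _ rfl, Nat.pos_of_ne_zero h0⟩, if_pos h1, h2,
        if_pos (Dvd.intro _ rfl), h3, h4]
      have hj : ((j : ℚ) + 1) ≠ 0 := by positivity
      rw [Polynomial.smul_eq_C_mul]
      have e1 : ((a * (j + 1) : ℕ) : Polynomial ℚ) = Polynomial.C ((a : ℚ) * ((j : ℚ) + 1)) := by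
        simp
      have e2 : ((a : ℕ) : Polynomial ℚ) = Polynomial.C (a : ℚ) := by simp
      have e3 : ((-1 : Polynomial ℚ) ^ j) = Polynomial.C ((-1) ^ j) := by simp
      rw [e1, e2, e3]
      have e4 : (Polynomial.X : Polynomial ℚ) ^ (a * (j + 1))
          = Polynomial.X ^ a * Polynomial.X ^ (a * j) := by
        rw [← pow_add]; congr 1; ring
      rw [e4]
      have e5 : Polynomial.C ((a : ℚ) * ((j : ℚ) + 1)) *
          (Polynomial.C ((-1) ^ (j + 1 + 1) / ((j + 1 : ℕ) : ℚ)))
          = Polynomial.C (a : ℚ) * Polynomial.C ((-1) ^ j) := by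
        rw [← Polynomial.C_mul, ← Polynomial.C_mul]
        congr 1
        push_cast
        field_simp
        ring
      rw [← mul_assoc, e5]
      ring
    · rw [if_neg (fun h => hd h.1)]
      split_ifs with h1 h2
      · exfalso
        apply hd
        have := (Nat.dvd_sub_iff_left h1 (dvd_refl a)).1 h2
        exact this
      · simp
      · simp

lemma th_lam (F : ℕ → ℕ) (a : ℕ) :
    th (lam F a) = - (ev a * ((((a / 2 : ℕ)) : PS) * (xx ^ a * yy ^ (a / 2)))) := by
  unfold lam
  rw [th_add, th_mul, th_mul, th_natCast, th_xx_pow, th_ev, th_sub, th_xx_pow, th_mul,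
    th_xx_pow, th_yy_pow]
  ring

/-- the telescoping term -/
noncomputable def GG (F : ℕ → ℕ) (b : ℕ) : PS :=
  ev b * (xx ^ b * yy ^ b * yy ^ (b / 2) * (lam F b * geo b))

/-- twice the summand of the logarithmic derivative -/
noncomputable def DD (F : ℕ → ℕ) (a : ℕ) : PS :=
  - (yy ^ a * (lam F a ^ 2 * geo a ^ 2 + a * xx ^ a * geo a + lam F (2 * a) * geo (2 * a)
    - 2 * F a * xx ^ (2 * a) - 2 * (1 + ev a) * xx ^ a + 2 * xx ^ (2 * a) * yy ^ a))

lemma ev_sq (a : ℕ) : ev a * ev a = ev a := by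
  by_cases h : Even a
  · simp [ev, h]
  · simp [ev, h]

lemma ev_two (a : ℕ) : ev (2 * a) = 1 := by
  have h : Even (2 * a) := even_two_mul a
  unfold ev
  rw [if_pos h]

lemma ev_half (a : ℕ) : ev a * (2 * ((a / 2 : ℕ) : PS)) = ev a * (a : PS) := by
  unfold ev
  split_ifs with h
  · obtain ⟨k, rfl⟩ := h
    have : (k + k) / 2 = k := by omega
    rw [this]; push_cast; ring
  · simp

lemma lam_two (F : ℕ → ℕ) (a : ℕ) :
    lam F (2 * a) = (F (2 * a) : PS) * xx ^ (2 * a) + (xx ^ a - xx ^ (2 * a) * yy ^ a) := by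
  unfold lam
  rw [ev_two]
  have : 2 * a / 2 = a := by omega
  rw [this, one_mul]

lemma smul_eq (q : ℚ) (f : PS) : q • f = algebraMap ℚ PS q * f := Algebra.smul_def q f

lemma two_th_ell (F : ℕ → ℕ) (a : ℕ) (ha : 1 ≤ a) :
    2 * th (ell F a) = DD F a - (GG F (2 * a) - GG F a) := by
  have h2 : (2 : PS) * algebraMap ℚ PS (1 / 2) = 1 := by
    have : (2 : PS) = algebraMap ℚ PS 2 := (map_ofNat _ 2).symm
    rw [this, ← map_mul]; norm_num
  have ha0 : (a : ℚ) ≠ 0 := by positivity
  have h3 : (a : PS) * algebraMap ℚ PS (1 / a) = 1 := by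
    have : (a : PS) = algebraMap ℚ PS a := by simp
    rw [this, ← map_mul, mul_one_div_cancel ha0, map_one]
  have hg := geo_mul a ha
  have hg2 := geo_mul (2 * a) (by omega)
  have e1 : (1 / (2 * a) : ℚ) = (1 / 2) * (1 / a) := by field_simp
  have e2 : (1 / (4 * a) : ℚ) = (1 / 2) * ((1 / 2) * (1 / a)) := by field_simp; norm_num
  have e3 : ((2 * F a - F (2 * a)) / (2 * a) : ℚ)
      = (2 * F a - F (2 * a)) * ((1 / 2) * (1 / a)) := by field_simp
  have e4 : algebraMap ℚ PS (2 * F a - F (2 * a)) = 2 * F a - F (2 * a) := by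
    rw [map_sub, map_mul, map_natCast, map_natCast, map_ofNat]
  unfold ell
  simp only [th_add, th_sub, th_smul, th_mul, th_logS a ha, th_xx_pow, th_yy_pow, th_ev,
    pow_two, th_lam, th_geo a ha]
  rw [e1, e2, e3]
  simp only [smul_eq, map_mul, map_neg, e4]
  unfold DD GG
  rw [ev_two, lam_two]
  have hh : 2 * a / 2 = a := by omega
  rw [hh]
  generalize algebraMap ℚ PS (1 / 2) = r at *
  generalize algebraMap ℚ PS (1 / a) = s at *
  have hev := ev_half a
  have x2 : xx ^ (2 * a) = xx ^ a * xx ^ a := by rw [two_mul, pow_add]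
  have y2 : yy ^ (2 * a) = yy ^ a * yy ^ a := by rw [two_mul, pow_add]
  rw [x2, y2] at hg2 ⊢
  push_cast
  generalize ev a = e at *
  generalize ((a / 2 : ℕ) : PS) = c at *
  generalize xx ^ a = p at *
  generalize yy ^ a = w at *
  generalize yy ^ (a / 2) = u at *
  generalize lam F a = l at *
  generalize geo a = g at *
  generalize geo (2 * a) = G at *
  generalize ((a : ℕ) : PS) = A at *
  generalize ((F a : ℕ) : PS) = f at *
  generalize ((F (2 * a) : ℕ) : PS) = f2 at *
  linear_combination (- (A * p * w * g)) * h2 + (2 * r * p * w) * h3 + (p * w) * h2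
    + (2 * e * p * w) * h3 - (4 * r * r * p * p * w * w) * h3
    - ((2 * r + 1) * p * p * w * w) * h2
    + ((2 * f - f2) * p * p * w * (2 * r)) * h3 + ((2 * f - f2) * p * p * w) * h2
    - ((w * l * l * g - p * w * w * l * l * g * g) * (2 * r)) * h3
    - (w * l * l * g - p * w * w * l * l * g * g) * h2
    + (w * l * l * g) * hg
    + (2 * r * s * w * l * g * p * u) * hev
    + (w * l * g * p * u * e * (2 * r)) * h3 + (w * l * g * p * u * e) * h2
    + (w * (f2 * (p * p) + (p - p * p * w))) * hg2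

/-- divisibility by `y ^ a` kills small coefficients -/
lemma coeff_of_yy_dvd {f : PS} {a n : ℕ} (h : yy ^ a ∣ f) (hn : n < a) :
    PowerSeries.coeff n f = 0 := by
  obtain ⟨g, rfl⟩ := h
  unfold yy
  rw [PowerSeries.coeff_X_pow_mul']
  rw [if_neg (by omega)]

lemma yy_dvd_logS (a : ℕ) : yy ^ a ∣ logS a := by
  unfold yy
  rw [PowerSeries.X_pow_dvd_iff]
  intro m hm
  unfold logS
  rw [PowerSeries.coeff_mk]
  rw [if_neg]
  rintro ⟨h1, h2⟩
  exact absurd (Nat.le_of_dvd h2 h1) (by omega)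

lemma yy_dvd_ell (F : ℕ → ℕ) (a : ℕ) : yy ^ a ∣ ell F a := by
  unfold ell
  simp only [smul_eq]
  have h1 : yy ^ a ∣ xx ^ a * yy ^ a := Dvd.intro_left _ rfl
  have h2 : yy ^ a ∣ xx ^ (2 * a) * yy ^ (2 * a) :=
    Dvd.dvd.mul_left (pow_dvd_pow yy (by omega)) _
  refine dvd_sub (dvd_add (dvd_sub (dvd_add (dvd_add ?_ ?_) ?_) ?_) ?_) ?_
  · exact Dvd.dvd.mul_left (yy_dvd_logS a) _
  · exact Dvd.dvd.mul_left h1 _
  · exact Dvd.dvd.mul_left (by rw [mul_assoc]; exact Dvd.dvd.mul_left h1 _) _
  · exact Dvd.dvd.mul_left h2 _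
  · exact Dvd.dvd.mul_left (Dvd.intro_left _ rfl) _
  · exact Dvd.dvd.mul_left (by rw [mul_assoc]; exact Dvd.intro _ rfl) _

lemma yy_dvd_GG (F : ℕ → ℕ) (a : ℕ) : yy ^ a ∣ GG F a := by
  unfold GG
  refine Dvd.dvd.mul_left ?_ _
  rw [mul_assoc, mul_assoc]
  exact Dvd.dvd.mul_left (Dvd.intro _ rfl) _

lemma GG_odd (F : ℕ → ℕ) (a : ℕ) (ha : ¬ Even a) : GG F a = 0 := by
  unfold GG ev
  rw [if_neg ha, zero_mul]

lemma telescope (m : ℕ) (f : ℕ → Polynomial ℚ) (h1 : ∀ b, ¬ Even b → f b = 0)
    (h2 : ∀ b, m < b → f b = 0) :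
    ∑ a ∈ Icc 1 m, f (2 * a) = ∑ b ∈ Icc 1 m, f b := by
  refine Finset.sum_bij_ne_zero (fun a _ _ => 2 * a) ?_ ?_ ?_ ?_
  · intro a ha hne
    rw [Finset.mem_Icc] at ha ⊢
    refine ⟨by omega, ?_⟩
    by_contra hlt
    exact hne (h2 _ (by omega))
  · intro a _ _ b _ _ hab
    omega
  · intro b hb hne
    rw [Finset.mem_Icc] at hb
    by_cases he : Even b
    · obtain ⟨k, hk⟩ := he
      have hk2 : 2 * k = b := by omega
      refine ⟨k, ?_, ?_, hk2⟩
      · rw [Finset.mem_Icc]; omega
      · rw [hk2]; exact hne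
    · exact absurd (h1 b he) hne
  · intro a _ _
    rfl

/-- uniqueness of the solution of the differential equation -/
lemma ode_unique (M A B : PS) (hM : PowerSeries.coeff 0 M = 0)
    (hA : th A = M * A) (hB : th B = M * B)
    (h0 : PowerSeries.coeff 0 A = PowerSeries.coeff 0 B) : A = B := by
  ext1 n
  induction n using Nat.strong_induction_on with
  | _ n ih =>
    by_cases hn : n = 0
    · rw [hn]; exact h0
    · have e1 := congrArg (PowerSeries.coeff n) hA
      have e2 := congrArg (PowerSeries.coeff n) hB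
      rw [coeff_th, PowerSeries.coeff_mul] at e1 e2
      have e3 : ∑ p ∈ antidiagonal n, PowerSeries.coeff p.1 M * PowerSeries.coeff p.2 A
          = ∑ p ∈ antidiagonal n, PowerSeries.coeff p.1 M * PowerSeries.coeff p.2 B := by
        refine Finset.sum_congr rfl fun p hp => ?_
        have h : p.1 + p.2 = n := by simpa using hp
        by_cases hp1 : p.1 = 0
        · rw [hp1, hM, zero_mul, zero_mul]
        · rw [ih p.2 (by omega)]
      rw [e3, ← e2] at e1
      have hn' : (n : Polynomial ℚ) ≠ 0 := by exact_mod_cast hn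
      exact mul_left_cancel₀ hn' e1

lemma th_pow (f : PS) (k : ℕ) : th (f ^ (k + 1)) = ((k + 1 : ℕ) : PS) * (f ^ k * th f) := by
  induction k with
  | zero => simp
  | succ k ih =>
    rw [pow_succ, th_mul, ih]
    push_cast
    ring

lemma coeff_pow_zero {f : PS} (hf : PowerSeries.coeff 0 f = 0) {k m : ℕ} (h : m < k) :
    PowerSeries.coeff m (f ^ k) = 0 := by
  have h1 : yy ∣ f := by
    unfold yy
    rw [PowerSeries.X_dvd_iff]
    simpa using hf
  exact coeff_of_yy_dvd (pow_dvd_pow_of_dvd h1 k) h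

lemma coeff_expS {f : PS} (hf : PowerSeries.coeff 0 f = 0) (m K : ℕ) (h : m ≤ K) :
    PowerSeries.coeff m (expS f) =
      ∑ k ∈ range (K + 1), (1 / k.factorial : ℚ) • PowerSeries.coeff m (f ^ k) := by
  unfold expS
  rw [PowerSeries.coeff_mk]
  refine Finset.sum_subset ?_ ?_
  · intro k hk
    rw [Finset.mem_range] at hk ⊢
    omega
  · intro k _ hk
    rw [Finset.mem_range] at hk
    rw [coeff_pow_zero hf (by omega), smul_zero]

lemma th_expS {f : PS} (hf : PowerSeries.coeff 0 f = 0) : th (expS f) = th f * expS f := by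
  ext1 m
  rw [coeff_th, coeff_expS hf m m le_rfl, PowerSeries.coeff_mul]
  by_cases hm : m = 0
  · subst hm
    simp [coeff_th]
  · obtain ⟨j, rfl⟩ := Nat.exists_eq_succ_of_ne_zero hm
    simp only [Nat.succ_eq_add_one] at *
    have e1 : ∑ p ∈ antidiagonal (j + 1), PowerSeries.coeff p.1 (th f)
          * PowerSeries.coeff p.2 (expS f)
        = ∑ p ∈ antidiagonal (j + 1), PowerSeries.coeff p.1 (th f)
          * ∑ k ∈ range (j + 1), (1 / k.factorial : ℚ) • PowerSeries.coeff p.2 (f ^ k) := by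
      refine Finset.sum_congr rfl fun p hp => ?_
      have h : p.1 + p.2 = j + 1 := by simpa using hp
      by_cases hp1 : p.1 = 0
      · rw [hp1, coeff_th]; simp
      · rw [coeff_expS hf p.2 j (by omega)]
    rw [e1]
    simp only [Finset.mul_sum, mul_smul_comm]
    rw [Finset.sum_comm, Finset.sum_range_succ']
    have e2 : (1 / (Nat.factorial 0 : ℚ)) • (((j + 1 : ℕ) : Polynomial ℚ) *
        PowerSeries.coeff (j + 1) (f ^ 0)) = 0 := by
      rw [pow_zero, PowerSeries.coeff_one, if_neg (by omega), mul_zero, smul_zero]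
    have e3 : ∑ k ∈ range (j + 1), (1 / ((k + 1).factorial : ℚ)) •
        (((j + 1 : ℕ) : Polynomial ℚ) * PowerSeries.coeff (j + 1) (f ^ (k + 1)))
        = ∑ k ∈ range (j + 1), (1 / (k.factorial : ℚ)) •
          PowerSeries.coeff (j + 1) (th f * f ^ k) := by
      refine Finset.sum_congr rfl fun k _ => ?_
      rw [← coeff_th, th_pow]
      have h4 : ((k + 1 : ℕ) : PS) = PowerSeries.C ((k + 1 : ℕ) : Polynomial ℚ) := by simp
      rw [h4, PowerSeries.coeff_C_mul]
      have h5 : ((k + 1 : ℕ) : Polynomial ℚ) = Polynomial.C ((k + 1 : ℕ) : ℚ) := by simp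
      rw [h5, Polynomial.C_mul', smul_smul, mul_comm (th f)]
      congr 1
      have h6 : ((k + 1).factorial : ℚ) = ((k + 1 : ℕ) : ℚ) * (k.factorial : ℚ) := by
        rw [Nat.factorial_succ]; push_cast; ring
      have h7 : ((k + 1 : ℕ) : ℚ) ≠ 0 := by positivity
      have h8 : (k.factorial : ℚ) ≠ 0 := by positivity
      rw [h6]
      field_simp
    rw [e2, add_zero, e3]
    refine Finset.sum_congr rfl fun k _ => ?_
    rw [PowerSeries.coeff_mul, Finset.smul_sum]

lemma coeff_zero_L (F : ℕ → ℕ) : PowerSeries.coeff 0 (L F) = 0 := by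
  unfold L
  rw [PowerSeries.coeff_mk]
  simp

lemma coeff_L (F : ℕ → ℕ) (i m : ℕ) (h : i ≤ m) :
    PowerSeries.coeff i (L F) = ∑ a ∈ Icc 1 m, PowerSeries.coeff i (ell F a) := by
  unfold L
  rw [PowerSeries.coeff_mk]
  refine Finset.sum_subset ?_ ?_
  · intro k hk
    rw [Finset.mem_Icc] at hk ⊢
    omega
  · intro k _ hk
    rw [Finset.mem_Icc] at hk
    by_cases hk0 : 1 ≤ k
    · exact coeff_of_yy_dvd (yy_dvd_ell F k) (by omega)
    · rename_i h5
      rw [Finset.mem_Icc] at h5
      omega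

theorem taskA : TaskAlgebra := by
  intro F Φ T1 T2 U h0 hT1 hT2 hU hΦ
  have t1 : ∀ b, 1 ≤ b → T1 b = lam F b * geo b * Φ := by
    intro b hb
    have h := hT1 b hb
    have hg := geo_mul b hb
    unfold lam
    linear_combination (geo b) * h - (T1 b) * hg
  have t2 : ∀ b, 1 ≤ b → T2 b = (lam F b ^ 2 * geo b ^ 2 + b * xx ^ b * geo b) * Φ := by
    intro b hb
    have h := hT2 b hb
    have h1 := t1 b hb
    have hg := geo_mul b hb
    have h2 : T2 b * (1 + xx ^ b * yy ^ b) = lam F b * T1 b + b * xx ^ b * Φ := by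
      unfold lam
      linear_combination h
    rw [h1] at h2
    linear_combination (geo b) * h2 - (T2 b) * hg
  have u1 : ∀ a, 1 ≤ a → 2 * (yy ^ a * U a) = - (DD F a * Φ) := by
    intro a ha
    have h := hU a ha
    have h1 := t1 a ha
    have h2 := t2 a ha
    have h3 := t1 (2 * a) (by omega)
    have hg := geo_mul a ha
    have hg2 := geo_mul (2 * a) (by omega)
    have hl := lam_two F a
    rw [h1, h2, h3] at h
    have hla : lam F a = (F a : PS) * xx ^ a + ev a * (xx ^ (a / 2) - xx ^ a * yy ^ (a / 2)) := rfl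
    have x2 : xx ^ (2 * a) = xx ^ a * xx ^ a := by rw [two_mul, pow_add]
    have y2 : yy ^ (2 * a) = yy ^ a * yy ^ a := by rw [two_mul, pow_add]
    unfold DD
    rw [x2, y2] at hg2 h
    rw [x2] at hl
    rw [x2]
    generalize yy ^ (a / 2) = u at *
    generalize xx ^ (a / 2) = q at *
    generalize ev a = e at *
    generalize xx ^ a = p at *
    generalize yy ^ a = w at *
    generalize lam F (2 * a) = l2 at *
    generalize lam F a = l at *
    generalize geo a = g at *
    generalize geo (2 * a) = G at *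
    generalize ((a : ℕ) : PS) = A at *
    generalize ((F a : ℕ) : PS) = f at *
    generalize ((F (2 * a) : ℕ) : PS) = f2 at *
    linear_combination w * h - (w * l * l * g * Φ) * hg - (w * A * p * Φ) * hg
      - (w * l2 * Φ) * hg2 - (w * Φ) * hl - (w * l * g * Φ) * hla
  have key : th Φ = th (L F) * Φ := by
    ext1 m
    have two_ne : (2 : Polynomial ℚ) ≠ 0 := two_ne_zero
    apply mul_left_cancel₀ two_ne
    rw [coeff_th, hΦ m]
    have two_C : (2 : PS) = PowerSeries.C (2 : Polynomial ℚ) := (map_ofNat _ 2).symm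
    have l1 : 2 * -∑ a ∈ Icc 1 m, PowerSeries.coeff (m - a) (U a)
        = ∑ a ∈ Icc 1 m, PowerSeries.coeff m (DD F a * Φ) := by
      rw [mul_neg, Finset.mul_sum, ← Finset.sum_neg_distrib]
      refine Finset.sum_congr rfl fun a ha => ?_
      rw [Finset.mem_Icc] at ha
      have h1 := congrArg (PowerSeries.coeff m) (u1 a ha.1)
      rw [two_C, PowerSeries.coeff_C_mul] at h1
      unfold yy at h1
      rw [PowerSeries.coeff_X_pow_mul', if_pos ha.2] at h1
      rw [h1, map_neg, neg_neg]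
    have r1 : PowerSeries.coeff m (th (L F) * Φ)
        = PowerSeries.coeff m ((∑ a ∈ Icc 1 m, th (ell F a)) * Φ) := by
      rw [PowerSeries.coeff_mul, PowerSeries.coeff_mul]
      refine Finset.sum_congr rfl fun p hp => ?_
      have h : p.1 + p.2 = m := by simpa using hp
      congr 1
      rw [coeff_th, coeff_L F p.1 m (by omega), map_sum, Finset.mul_sum]
      refine Finset.sum_congr rfl fun a _ => ?_
      rw [coeff_th]
    have r2 : 2 * PowerSeries.coeff m ((∑ a ∈ Icc 1 m, th (ell F a)) * Φ)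
        = ∑ a ∈ Icc 1 m, PowerSeries.coeff m ((DD F a - (GG F (2 * a) - GG F a)) * Φ) := by
      rw [Finset.sum_mul, map_sum, Finset.mul_sum]
      refine Finset.sum_congr rfl fun a ha => ?_
      rw [Finset.mem_Icc] at ha
      rw [← two_th_ell F a ha.1, mul_assoc, two_C, PowerSeries.coeff_C_mul]
    rw [l1, r1, r2]
    have r3 : ∀ a, PowerSeries.coeff m ((DD F a - (GG F (2 * a) - GG F a)) * Φ)
        = PowerSeries.coeff m (DD F a * Φ) - (PowerSeries.coeff m (GG F (2 * a) * Φ)
          - PowerSeries.coeff m (GG F a * Φ)) := by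
      intro a
      rw [sub_mul, sub_mul, map_sub, map_sub]
    simp only [r3]
    rw [Finset.sum_sub_distrib, Finset.sum_sub_distrib]
    have tel := telescope m (fun b => PowerSeries.coeff m (GG F b * Φ))
      (fun b hb => by simp only [GG_odd F b hb, zero_mul, map_zero])
      (fun b hb => coeff_of_yy_dvd (Dvd.dvd.mul_right (yy_dvd_GG F b) Φ) hb)
    rw [tel, sub_self, sub_zero]
  refine ode_unique (th (L F)) Φ (expS (L F)) ?_ key (th_expS (coeff_zero_L F)) ?_
  · rw [coeff_th]; simp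
  · rw [h0, coeff_expS (coeff_zero_L F) 0 0 le_rfl]
    simp

end Pool.Agent.H167R3.A958
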