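import Mathlib

set_option autoImplicit false

/-!
# Inversion number: decycling families as vectors over `ZMod 2`
-/

namespace Pool.Agent.H167R3.Inv

open Finset

/-- the dot product over `ZMod 2` -/
def dot {m : ℕ} (a b : Fin m → ZMod 2) : ZMod 2 := ∑ j, a j * b j

theorem dot_comm {m : ℕ} (a b : Fin m → ZMod 2) : dot a b = dot b a := by
  unfold dot
  exact Finset.sum_congr rfl fun j _ => mul_comm _ _

/-- the set of `m` such that `m` inversions make `A` acyclic (shape of the frozen statement) -/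
def InvSet {V : Type} (A : V → V → Prop) : Set ℕ :=
  {m : ℕ | ∃ X : Fin m → Set V, ∃ f : V → ℕ, ∀ u v : V,
    (A u v ∧ Even (Nat.card {j : Fin m // u ∈ X j ∧ v ∈ X j})) ∨
    (A v u ∧ Odd (Nat.card {j : Fin m // u ∈ X j ∧ v ∈ X j})) → f u < f v}

/-- `z` and `f` witness that `m` inversions suffice -/
def Wit {V : Type} (A : V → V → Prop) (m : ℕ) (z : V → Fin m → ZMod 2) (f : V → ℕ) : Prop :=
  ∀ u v : V, (A u v ∧ dot (z u) (z v) = 0) ∨ (A v u ∧ dot (z u) (z v) = 1) → f u < f v

theorem zmod2_cases (a : ZMod 2) : a = 0 ∨ a = 1 := by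
  revert a; decide

theorem card_cast {V : Type} {m : ℕ} (z : V → Fin m → ZMod 2) (u v : V) :
    ((Nat.card {j : Fin m // z u j = 1 ∧ z v j = 1} : ℕ) : ZMod 2) = dot (z u) (z v) := by
  classical
  rw [Nat.card_eq_fintype_card, Fintype.card_subtype, Finset.card_filter]
  push_cast
  unfold dot
  refine Finset.sum_congr rfl fun j _ => ?_
  rcases zmod2_cases (z u j) with h1 | h1 <;> rcases zmod2_cases (z v j) with h2 | h2 <;>
    simp [h1, h2]

theorem mem_of_wit {V : Type} {A : V → V → Prop} {m : ℕ} {z : V → Fin m → ZMod 2} {f : V → ℕ}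
    (h : Wit A m z f) : m ∈ InvSet A := by
  refine ⟨fun j => {v | z v j = 1}, f, fun u v huv => h u v ?_⟩
  have hc := card_cast z u v
  rcases huv with ⟨h1, h2⟩ | ⟨h1, h2⟩
  · left
    refine ⟨h1, ?_⟩
    rw [← hc]
    exact ZMod.natCast_eq_zero_iff_even.2 h2
  · right
    refine ⟨h1, ?_⟩
    rw [← hc]
    exact ZMod.natCast_eq_one_iff_odd.2 h2

theorem wit_of_mem {V : Type} {A : V → V → Prop} {m : ℕ} (h : m ∈ InvSet A) :
    ∃ (z : V → Fin m → ZMod 2) (f : V → ℕ), Wit A m z f := by
  classical
  obtain ⟨X, f, hf⟩ := h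
  refine ⟨fun v j => if v ∈ X j then 1 else 0, f, fun u v huv => hf u v ?_⟩
  have hc := card_cast (fun v (j : Fin m) => if v ∈ X j then (1 : ZMod 2) else 0) u v
  have he : Nat.card {j : Fin m // (if u ∈ X j then (1 : ZMod 2) else 0) = 1 ∧
      (if v ∈ X j then (1 : ZMod 2) else 0) = 1} = Nat.card {j : Fin m // u ∈ X j ∧ v ∈ X j} := by
    apply Nat.card_congr
    apply Equiv.subtypeEquivRight
    intro j
    by_cases h1 : u ∈ X j <;> by_cases h2 : v ∈ X j <;> simp [h1, h2]
  beta_reduce at hc
  rw [he] at hc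
  rcases huv with ⟨h1, h2⟩ | ⟨h1, h2⟩
  · left
    refine ⟨h1, ZMod.natCast_eq_zero_iff_even.1 ?_⟩
    rw [hc]
    exact h2
  · right
    refine ⟨h1, ZMod.natCast_eq_one_iff_odd.1 ?_⟩
    rw [hc]
    exact h2

/-- extending a vector by one coordinate -/
theorem dot_snoc {m : ℕ} (a b : Fin m → ZMod 2) (x y : ZMod 2) :
    dot (Fin.snoc (α := fun _ => ZMod 2) a x) (Fin.snoc (α := fun _ => ZMod 2) b y) =
      dot a b + x * y := by
  unfold dot
  rw [Fin.sum_univ_castSucc]
  simp

theorem succ_mem {V : Type} {A : V → V → Prop} {m : ℕ} (h : m ∈ InvSet A) :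
    m + 1 ∈ InvSet A := by
  obtain ⟨z, f, hf⟩ := wit_of_mem h
  refine mem_of_wit (z := fun v => Fin.snoc (α := fun _ => ZMod 2) (z v) 0) (f := f) ?_
  intro u v huv
  apply hf u v
  rw [dot_snoc] at huv
  simpa using huv

theorem mono_mem {V : Type} {A : V → V → Prop} {m m' : ℕ} (h : m ∈ InvSet A) (hm : m ≤ m') :
    m' ∈ InvSet A := by
  induction hm with
  | refl => exact h
  | step _ ih => exact succ_mem ih

theorem mem_of_sub {V : Type} {A B : V → V → Prop} {m : ℕ} (hAB : ∀ u v, A u v → B u v)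
    (h : m ∈ InvSet B) : m ∈ InvSet A := by
  obtain ⟨z, f, hf⟩ := wit_of_mem h
  refine mem_of_wit (z := z) (f := f) ?_
  intro u v huv
  apply hf u v
  rcases huv with ⟨h1, h2⟩ | ⟨h1, h2⟩
  · exact Or.inl ⟨hAB _ _ h1, h2⟩
  · exact Or.inr ⟨hAB _ _ h1, h2⟩

/-- Removing one arc lowers the inversion number by at most one. -/
theorem mem_of_remove {s : ℕ} {A B : Fin s → Fin s → Prop} {m : ℕ} (a b : Fin s) (hab : a ≠ b)
    (hB : ∀ u v, B u v → (A u v ∨ (u = a ∧ v = b)))
    (hBo : ∀ u v, B u v → ¬ B v u) (hBab : B a b)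
    (h : m ∈ InvSet A) : m + 1 ∈ InvSet B := by
  classical
  obtain ⟨z, f, hf⟩ := wit_of_mem h
  -- an injective refinement of `f`
  let f' : Fin s → ℕ := fun v => f v * s + v.val
  have hf' : ∀ u v, f u < f v → f' u < f' v := by
    intro u v huv
    have h1 : (f u + 1) * s ≤ f v * s := Nat.mul_le_mul_right s huv
    have h2 := u.isLt
    simp only [f']
    nlinarith
  have hinj : ∀ u v, f' u = f' v → u = v := by
    intro u v huv
    rcases lt_trichotomy (f u) (f v) with h1 | h1 | h1
    · exact absurd huv (hf' u v h1).ne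
    · simp only [f', h1] at huv
      exact Fin.ext (by omega)
    · exact absurd huv (hf' v u h1).ne'
  -- the new coordinate
  by_cases hgood : (dot (z a) (z b) = 0 ↔ f' a < f' b)
  · -- the arc `a b` already agrees with the order
    refine mem_of_wit (z := fun v => Fin.snoc (α := fun _ => ZMod 2) (z v) 0) (f := f') ?_
    intro u v huv
    rw [dot_snoc] at huv
    simp only [mul_zero, add_zero] at huv
    rcases huv with ⟨h1, h2⟩ | ⟨h1, h2⟩
    · rcases hB _ _ h1 with h3 | ⟨rfl, rfl⟩
      · exact hf' _ _ (hf u v (Or.inl ⟨h3, h2⟩))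
      · exact hgood.1 h2
    · rcases hB _ _ h1 with h3 | ⟨rfl, rfl⟩
      · exact hf' _ _ (hf u v (Or.inr ⟨h3, h2⟩))
      · -- arc v → u, odd: want f' u < f' v
        have h4 : ¬ f' v < f' u := by
          intro h5
          have := hgood.2 h5
          rw [dot_comm, h2] at this
          exact one_ne_zero this
        rcases lt_or_eq_of_le (not_lt.1 h4) with h5 | h5
        · exact h5
        · exact absurd (hinj _ _ h5).symm hab
  · -- flip the pair
    refine mem_of_wit (z := fun v => Fin.snoc (α := fun _ => ZMod 2) (z v)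
      (if v = a ∨ v = b then 1 else 0)) (f := f') ?_
    intro u v huv
    rw [dot_snoc] at huv
    -- `B u v` or `B v u`, so `u ≠ v`
    by_cases hp : (u = a ∧ v = b) ∨ (u = b ∧ v = a)
    · rcases hp with ⟨rfl, rfl⟩ | ⟨rfl, rfl⟩
      · simp only [true_or, or_true, if_true, mul_one] at huv
        rcases huv with ⟨_, h2⟩ | ⟨h1, _⟩
        · rcases zmod2_cases (dot (z u) (z v)) with h3 | h3
          · rw [h3] at h2
            exact absurd h2 (by decide)
          · by_contra h4
            exact hgood ⟨fun h5 => absurd (h3.symm.trans h5) (by decide), fun h5 => absurd h5 h4⟩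
        · exact absurd hBab (hBo _ _ h1)
      · simp only [true_or, or_true, if_true, mul_one] at huv
        rcases huv with ⟨h1, _⟩ | ⟨_, h2⟩
        · exact absurd hBab (hBo _ _ h1)
        · rcases zmod2_cases (dot (z u) (z v)) with h3 | h3
          · -- dot = 0, so (not good) ¬ (f' v < f' u)
            have h4 : ¬ f' v < f' u := by
              intro h5
              apply hgood
              rw [dot_comm] at h3
              exact ⟨fun _ => h5, fun _ => h3⟩
            rcases lt_or_eq_of_le (not_lt.1 h4) with h5 | h5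
            · exact h5
            · exact absurd (hinj _ _ h5).symm hab
          · rw [h3] at h2
            exact absurd h2 (by decide)
    · have hne : u ≠ v := by
        rintro rfl
        rcases huv with ⟨h1, _⟩ | ⟨h1, _⟩
        · exact hBo _ _ h1 h1
        · exact hBo _ _ h1 h1
      have h0 : (if u = a ∨ u = b then (1 : ZMod 2) else 0) * (if v = a ∨ v = b then 1 else 0) = 0 := by
        by_cases h1 : u = a ∨ u = b
        · by_cases h2 : v = a ∨ v = b
          · exfalso
            rcases h1 with rfl | rfl <;> rcases h2 with rfl | rfl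
            · exact hne rfl
            · exact hp (Or.inl ⟨rfl, rfl⟩)
            · exact hp (Or.inr ⟨rfl, rfl⟩)
            · exact hne rfl
          · simp [h2]
        · simp [h1]
      rw [h0, add_zero] at huv
      apply hf'
      apply hf u v
      rcases huv with ⟨h1, h2⟩ | ⟨h1, h2⟩
      · rcases hB _ _ h1 with h3 | h3
        · exact Or.inl ⟨h3, h2⟩
        · exact absurd (Or.inl h3) hp
      · rcases hB _ _ h1 with h3 | h3
        · exact Or.inr ⟨h3, h2⟩
        · exact absurd (Or.inr ⟨h3.2, h3.1⟩) hp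

/-- Intermediate values: below a digraph which needs more than `r` inversions there is one that needs
exactly `r + 1`. -/
theorem exists_sub {s : ℕ} (A : Fin s → Fin s → Prop) (hA : ∀ u v, A u v → ¬ A v u) (r : ℕ)
    (hr : r ∉ InvSet A) :
    ∃ B : Fin s → Fin s → Prop, (∀ u v, B u v → A u v) ∧ sInf (InvSet B) = r + 1 := by
  classical
  -- choose a minimal arc set
  let P : Finset (Fin s × Fin s) → Prop := fun F => r ∉ InvSet (fun u v => (u, v) ∈ F)
  let F0 : Finset (Fin s × Fin s) := Finset.univ.filter (fun p => A p.1 p.2)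
  have hP0 : P F0 := by
    intro h
    apply hr
    exact mem_of_sub (fun u v huv => by simp [F0, huv]) h
  have hex : ∃ n, ∃ F, F ⊆ F0 ∧ P F ∧ F.card = n := ⟨_, F0, Finset.Subset.refl _, hP0, rfl⟩
  obtain ⟨F, hF, hPF, hc⟩ := Nat.find_spec hex
  have hmin : ∀ F', F' ⊆ F0 → P F' → Nat.find hex ≤ F'.card := fun F' h1 h2 =>
    Nat.find_min' hex ⟨F', h1, h2, rfl⟩
  have hFo : ∀ u v, (u, v) ∈ F → (v, u) ∉ F := by
    intro u v h1 h2
    have h3 := hF h1
    have h4 := hF h2
    simp only [F0, Finset.mem_filter, Finset.mem_univ, true_and] at h3 h4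
    exact hA _ _ h3 h4
  refine ⟨fun u v => (u, v) ∈ F, fun u v h => by simpa [F0] using hF h, ?_⟩
  have hne : F.Nonempty := by
    by_contra h
    rw [Finset.not_nonempty_iff_eq_empty] at h
    apply hPF
    rw [h]
    refine mem_of_wit (z := fun _ _ => 0) (f := fun _ => 0) ?_
    intro u v huv
    simp at huv
  obtain ⟨⟨a, b⟩, hab⟩ := hne
  have hab' : a ≠ b := by
    rintro rfl
    exact hFo _ _ hab hab
  have hmem : r + 1 ∈ InvSet (fun u v => (u, v) ∈ F) := by
    have h1 : r ∈ InvSet (fun u v => (u, v) ∈ F.erase (a, b)) := by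
      by_contra h
      have h2 := hmin (F.erase (a, b)) ((Finset.erase_subset _ _).trans hF) h
      rw [← hc, Finset.card_erase_of_mem hab] at h2
      have h3 : 0 < F.card := Finset.card_pos.2 ⟨_, hab⟩
      omega
    refine mem_of_remove a b hab' ?_ hFo hab h1
    intro u v huv
    by_cases h2 : (u, v) = (a, b)
    · right
      exact ⟨congrArg Prod.fst h2, congrArg Prod.snd h2⟩
    · left
      exact Finset.mem_erase.2 ⟨h2, huv⟩
  apply le_antisymm
  · exact Nat.sInf_le hmem
  · by_contra h
    have h1 : sInf (InvSet (fun u v => (u, v) ∈ F)) ∈ InvSet (fun u v => (u, v) ∈ F) :=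
      Nat.sInf_mem ⟨_, hmem⟩
    exact hPF (mono_mem h1 (by omega))

end Pool.Agent.H167R3.Inv
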