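import Pool.Agent.H167R3.InvBasic

set_option autoImplicit false

/-!
# Counting tournaments of small inversion number
-/

namespace Pool.Agent.H167R3.Inv

open Finset

/-- the tournament on `Fin s` coded by the upper triangle of the matrix `H` -/
def Tour {s : ℕ} (H : Matrix (Fin s) (Fin s) (ZMod 2)) (i j : Fin s) : Prop :=
  (i < j ∧ H i j = 0) ∨ (j < i ∧ H i j = 1)

theorem tour_asymm {s : ℕ} {H : Matrix (Fin s) (Fin s) (ZMod 2)} (hH : ∀ i j, H i j = H j i)
    (i j : Fin s) (h : Tour H i j) : ¬ Tour H j i := by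
  rintro (⟨h1, h2⟩ | ⟨h1, h2⟩) <;> rcases h with ⟨h3, h4⟩ | ⟨h3, h4⟩
  · exact lt_asymm h1 h3
  · rw [hH, h4] at h2
    exact absurd h2 (by decide)
  · rw [hH, h4] at h2
    exact absurd h2 (by decide)
  · exact lt_asymm h1 h3

/-- rank function of `f` -/
noncomputable def rk {s : ℕ} (f : Fin s → ℕ) (i : Fin s) : Fin s :=
  ⟨(univ.filter (fun j => f j < f i)).card, by
    have h : (univ.filter (fun j => f j < f i)) ⊂ (univ : Finset (Fin s)) := by
      refine Finset.ssubset_iff_subset_ne.2 ⟨Finset.subset_univ _, ?_⟩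
      intro h
      have : i ∈ univ.filter (fun j => f j < f i) := by rw [h]; exact Finset.mem_univ _
      simp at this
    have := Finset.card_lt_card h
    simpa using this⟩

theorem rk_lt {s : ℕ} (f : Fin s → ℕ) (i j : Fin s) : rk f i < rk f j ↔ f i < f j := by
  constructor
  · intro h
    by_contra h1
    have h1 : f j ≤ f i := not_lt.1 h1
    have : (univ.filter (fun k => f k < f j)).card ≤ (univ.filter (fun k => f k < f i)).card := by
      apply Finset.card_le_card
      intro k hk
      simp only [mem_filter, mem_univ, true_and] at hk ⊢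
      omega
    simp only [rk, Fin.mk_lt_mk] at h
    omega
  · intro h
    simp only [rk, Fin.mk_lt_mk]
    apply Finset.card_lt_card
    refine Finset.ssubset_iff_subset_ne.2 ⟨?_, ?_⟩
    · intro k hk
      simp only [mem_filter, mem_univ, true_and] at hk ⊢
      omega
    · intro h1
      have : i ∈ univ.filter (fun k => f k < f j) := by simp [h]
      rw [← h1] at this
      simp at this

/-- spanning subfamily of size at most `r` of a family of vectors in `(ZMod 2)^r` -/
theorem exists_span {s r : ℕ} (z : Fin s → Fin r → ZMod 2) :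
    ∃ I : Finset (Fin s), I.card ≤ r ∧
      ∀ i, ∃ c : Fin s → ZMod 2, ∀ t, z i t = ∑ k ∈ I, c k * z k t := by
  classical
  obtain ⟨κ, a, hinj, hspan, hli⟩ := exists_linearIndependent' (ZMod 2) z
  have : Finite κ := Finite.of_injective a hinj
  have := Fintype.ofFinite κ
  refine ⟨univ.image a, ?_, ?_⟩
  · rw [Finset.card_image_of_injective _ hinj, Finset.card_univ]
    have := hli.fintype_card_le_finrank
    simpa using this
  · intro i
    have h1 : z i ∈ Submodule.span (ZMod 2) (Set.range (z ∘ a)) := by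
      rw [hspan]
      exact Submodule.subset_span ⟨i, rfl⟩
    rw [Submodule.mem_span_range_iff_exists_fun] at h1
    obtain ⟨c, hc⟩ := h1
    refine ⟨fun k => if h : ∃ x, a x = k then c h.choose else 0, fun t => ?_⟩
    rw [Finset.sum_image (fun x _ y _ h => hinj h), ← hc]
    simp only [Finset.sum_apply, Pi.smul_apply, Function.comp, smul_eq_mul]
    refine Finset.sum_congr rfl fun x _ => ?_
    have hx : ∃ y, a y = a x := ⟨x, rfl⟩
    rw [dif_pos hx, hinj hx.choose_spec]

/-- the matrices coded by an order `f`, a spanning set `I` and diagonal Gram entries `γ` -/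
def Coded {s : ℕ} (r : ℕ) (f : Fin s → Fin s) (I : Finset (Fin s)) (γ : Fin s → ZMod 2)
    (H : Matrix (Fin s) (Fin s) (ZMod 2)) : Prop :=
  (∀ i j, H i j = H j i) ∧ ∃ z : Fin s → Fin r → ZMod 2,
    (∀ i, ∃ c : Fin s → ZMod 2, ∀ t, z i t = ∑ k ∈ I, c k * z k t) ∧
    (∀ k, dot (z k) (z k) = γ k) ∧
    ∀ i j, i < j → H i j = dot (z i) (z j) + if f j < f i then 1 else 0

theorem exists_code {s r : ℕ} {H : Matrix (Fin s) (Fin s) (ZMod 2)} (hH : ∀ i j, H i j = H j i)
    (h : r ∈ InvSet (Tour H)) :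
    ∃ (f : Fin s → Fin s) (I : Finset (Fin s)) (γ : Fin s → ZMod 2), I.card ≤ r ∧
      Coded r f I γ H := by
  obtain ⟨z, f, hf⟩ := wit_of_mem h
  obtain ⟨I, hI, hsp⟩ := exists_span z
  refine ⟨rk f, I, fun k => dot (z k) (z k), hI, hH, z, hsp, fun k => rfl, ?_⟩
  intro i j hij
  rw [show (if rk f j < rk f i then (1 : ZMod 2) else 0) = if f j < f i then 1 else 0 by
    simp only [rk_lt]]
  rcases zmod2_cases (H i j) with h1 | h1 <;> rcases zmod2_cases (dot (z i) (z j)) with h2 | h2
  · have := hf i j (Or.inl ⟨Or.inl ⟨hij, h1⟩, h2⟩)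
    rw [h1, h2, if_neg (by omega)]
    decide
  · have := hf j i (Or.inr ⟨Or.inl ⟨hij, h1⟩, by rw [dot_comm]; exact h2⟩)
    rw [h1, h2, if_pos this]
    decide
  · have := hf j i (Or.inl ⟨Or.inr ⟨hij, by rw [hH]; exact h1⟩, by rw [dot_comm]; exact h2⟩)
    rw [h1, h2, if_pos this]
    decide
  · have := hf i j (Or.inr ⟨Or.inr ⟨hij, by rw [hH]; exact h1⟩, h2⟩)
    rw [h1, h2, if_neg (by omega)]
    decide

theorem dot_expand_left {s r : ℕ} (z : Fin s → Fin r → ZMod 2) (I : Finset (Fin s))
    (c : Fin s → ZMod 2) (w v : Fin r → ZMod 2) (hw : ∀ t, w t = ∑ k ∈ I, c k * z k t) :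
    dot w v = ∑ k ∈ I, c k * dot (z k) v := by
  unfold dot
  simp only [hw, Finset.sum_mul, Finset.mul_sum]
  rw [Finset.sum_comm]
  exact Finset.sum_congr rfl fun k _ => Finset.sum_congr rfl fun t _ => by ring

/-- two coded matrices with the same code which agree on the diagonal and on the rows in `I` agree -/
theorem coded_unique {s r : ℕ} {f : Fin s → Fin s} {I : Finset (Fin s)} {γ : Fin s → ZMod 2}
    {H H' : Matrix (Fin s) (Fin s) (ZMod 2)} (h : Coded r f I γ H) (h' : Coded r f I γ H')
    (hd : ∀ i, H i i = H' i i) (hI : ∀ i j, i < j → (i ∈ I ∨ j ∈ I) → H i j = H' i j) : H = H' := by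
  obtain ⟨hs, z, hz, hg, hH⟩ := h
  obtain ⟨hs', z', hz', hg', hH'⟩ := h'
  -- Gram entries with one index in `I` agree
  have key : ∀ k ∈ I, ∀ i, dot (z k) (z i) = dot (z' k) (z' i) := by
    intro k hk i
    rcases lt_trichotomy k i with h1 | h1 | h1
    · have h2 := hI k i h1 (Or.inl hk)
      rw [hH k i h1, hH' k i h1] at h2
      exact add_right_cancel h2
    · subst h1
      rw [hg, hg']
    · have h2 := hI i k h1 (Or.inr hk)
      rw [hH i k h1, hH' i k h1] at h2
      rw [dot_comm (z k), dot_comm (z' k)]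
      exact add_right_cancel h2
  have all : ∀ i j, dot (z i) (z j) = dot (z' i) (z' j) := by
    intro i j
    obtain ⟨c, hc⟩ := hz i
    obtain ⟨d, hd⟩ := hz' j
    have e1 : dot (z i) (z j) = ∑ k ∈ I, c k * dot (z' k) (z' j) := by
      rw [dot_expand_left z I c (z i) (z j) hc]
      exact Finset.sum_congr rfl fun k hk => by rw [key k hk j]
    have e2 : ∀ k ∈ I, dot (z' k) (z' j) = ∑ l ∈ I, d l * dot (z k) (z l) := by
      intro k hk
      rw [dot_comm, dot_expand_left z' I d (z' j) (z' k) hd]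
      refine Finset.sum_congr rfl fun l hl => ?_
      rw [dot_comm (z' l), ← key k hk l]
    have e3 : ∀ l ∈ I, ∑ k ∈ I, c k * dot (z k) (z l) = dot (z' i) (z' l) := by
      intro l hl
      rw [← dot_expand_left z I c (z i) (z l) hc, dot_comm, key l hl i, dot_comm]
    rw [e1, Finset.sum_congr rfl fun k hk => by rw [e2 k hk]]
    simp only [Finset.mul_sum]
    rw [Finset.sum_comm]
    rw [dot_comm (z' i), dot_expand_left z' I d (z' j) (z' i) hd]
    refine Finset.sum_congr rfl fun l hl => ?_
    rw [dot_comm (z' l), ← e3 l hl, Finset.mul_sum]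
    exact Finset.sum_congr rfl fun k _ => by ring
  ext i j
  rcases lt_trichotomy i j with h1 | h1 | h1
  · rw [hH i j h1, hH' i j h1, all]
  · subst h1
    exact hd i
  · rw [hs i j, hs' i j, hH j i h1, hH' j i h1, all]

/-- positions of the upper triangle which are on the diagonal or meet `I` -/
def pos {s : ℕ} (I : Finset (Fin s)) : Finset (Fin s × Fin s) :=
  univ.filter (fun p => p.1 ≤ p.2 ∧ (p.1 = p.2 ∨ p.1 ∈ I ∨ p.2 ∈ I))

theorem card_coded_le {s r : ℕ} (f : Fin s → Fin s) (I : Finset (Fin s)) (γ : Fin s → ZMod 2)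
    [DecidablePred (Coded r f I γ)] :
    (univ.filter (Coded r f I γ)).card ≤ 2 ^ (pos I).card := by
  classical
  have h1 : (univ.filter (Coded r f I γ)).card ≤
      (univ : Finset ({p // p ∈ pos I} → ZMod 2)).card := by
    apply Finset.card_le_card_of_injOn (fun H p => H p.1.1 p.1.2) (fun _ _ => Finset.mem_univ _)
    intro H hH H' hH' hHH
    simp only [coe_filter, mem_univ, true_and, Set.mem_ofPred_eq] at hH hH'
    apply coded_unique hH hH'
    · intro i
      exact congrFun hHH ⟨(i, i), by simp [pos]⟩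
    · intro i j hij hIj
      exact congrFun hHH ⟨(i, j), by simp [pos, hij.le, hIj]⟩
  refine h1.trans (le_of_eq ?_)
  rw [Finset.card_univ, Fintype.card_fun, ZMod.card, Fintype.card_coe]

/-- ordered pairs inside a set -/
theorem card_lt_pairs {s : ℕ} (J : Finset (Fin s)) :
    2 * (univ.filter (fun p : Fin s × Fin s => p.1 < p.2 ∧ p.1 ∈ J ∧ p.2 ∈ J)).card =
      J.card * J.card - J.card := by
  classical
  rw [← Finset.offDiag_card]
  have h1 : J.offDiag = (univ.filter (fun p : Fin s × Fin s => p.1 < p.2 ∧ p.1 ∈ J ∧ p.2 ∈ J)) ∪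
      (univ.filter (fun p : Fin s × Fin s => p.2 < p.1 ∧ p.1 ∈ J ∧ p.2 ∈ J)) := by
    ext ⟨a, b⟩
    simp only [mem_offDiag, mem_union, mem_filter, mem_univ, true_and]
    constructor
    · rintro ⟨h1, h2, h3⟩
      rcases lt_or_gt_of_ne h3 with h4 | h4
      · exact Or.inl ⟨h4, h1, h2⟩
      · exact Or.inr ⟨h4, h1, h2⟩
    · rintro (⟨h1, h2, h3⟩ | ⟨h1, h2, h3⟩)
      · exact ⟨h2, h3, h1.ne⟩
      · exact ⟨h2, h3, h1.ne'⟩
  have h2 : Disjoint (univ.filter (fun p : Fin s × Fin s => p.1 < p.2 ∧ p.1 ∈ J ∧ p.2 ∈ J))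
      (univ.filter (fun p : Fin s × Fin s => p.2 < p.1 ∧ p.1 ∈ J ∧ p.2 ∈ J)) := by
    rw [Finset.disjoint_left]
    intro p hp hq
    simp only [mem_filter, mem_univ, true_and] at hp hq
    exact lt_asymm hp.1 hq.1
  have h3 : (univ.filter (fun p : Fin s × Fin s => p.2 < p.1 ∧ p.1 ∈ J ∧ p.2 ∈ J)).card =
      (univ.filter (fun p : Fin s × Fin s => p.1 < p.2 ∧ p.1 ∈ J ∧ p.2 ∈ J)).card := by
    apply Finset.card_bij (fun p _ => (p.2, p.1))
    · intro p hp
      simp only [mem_filter, mem_univ, true_and] at hp ⊢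
      exact ⟨hp.1, hp.2.2, hp.2.1⟩
    · rintro ⟨a, b⟩ _ ⟨c, d⟩ _ h
      simp only [Prod.mk.injEq] at h
      rw [h.1, h.2]
    · rintro ⟨a, b⟩ hp
      simp only [mem_filter, mem_univ, true_and] at hp
      exact ⟨(b, a), by simpa using ⟨hp.1, hp.2.2, hp.2.1⟩, rfl⟩
  rw [h1, Finset.card_union_of_disjoint h2, h3]
  ring

theorem card_pos_le {s r : ℕ} (I : Finset (Fin s)) (hI : I.card ≤ r) :
    2 * (pos I).card + (s - r) * (s - r) ≤ s * s + s + (s - r) := by
  classical
  -- pairs with `p.1 < p.2` in the whole set and in the complement of `I`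
  have hall := card_lt_pairs (univ : Finset (Fin s))
  have hcomp := card_lt_pairs (Iᶜ)
  simp only [mem_univ, and_true] at hall
  have hdiag : (univ.filter (fun p : Fin s × Fin s => p.1 = p.2)).card = s := by
    have : (univ.filter (fun p : Fin s × Fin s => p.1 = p.2)) =
        (univ : Finset (Fin s)).image (fun i => (i, i)) := by
      ext ⟨a, b⟩
      simp only [mem_filter, mem_univ, true_and, mem_image, Prod.mk.injEq]
      constructor
      · rintro rfl
        exact ⟨a, rfl, rfl⟩
      · rintro ⟨c, rfl, rfl⟩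
        rfl
    rw [this, Finset.card_image_of_injective]
    · simp
    · intro a b h
      exact (Prod.mk.inj h).1
  have hsplit : (pos I).card + (univ.filter (fun p : Fin s × Fin s => p.1 < p.2 ∧ p.1 ∈ Iᶜ ∧
      p.2 ∈ Iᶜ)).card = (univ.filter (fun p : Fin s × Fin s => p.1 < p.2)).card + s := by
    refine Eq.trans ?_ (congrArg (fun t => (univ.filter (fun p : Fin s × Fin s => p.1 < p.2)).card + t)
      hdiag)
    beta_reduce
    rw [← Finset.card_union_of_disjoint, ← Finset.card_union_of_disjoint]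
    · congr 1
      ext ⟨a, b⟩
      simp only [pos, mem_union, mem_filter, mem_univ, true_and, mem_compl]
      constructor
      · rintro (⟨h1, h2⟩ | ⟨h1, h2, h3⟩)
        · rcases h1.lt_or_eq with h4 | h4
          · exact Or.inl h4
          · exact Or.inr h4
        · exact Or.inl h1
      · rintro (h1 | h1)
        · by_cases h2 : a ∈ I ∨ b ∈ I
          · exact Or.inl ⟨h1.le, Or.inr h2⟩
          · push Not at h2
            exact Or.inr ⟨h1, h2.1, h2.2⟩
        · exact Or.inl ⟨h1.le, Or.inl h1⟩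
    · rw [Finset.disjoint_left]
      intro p hp hq
      simp only [mem_filter, mem_univ, true_and] at hp hq
      exact hp.ne hq
    · rw [Finset.disjoint_left]
      intro p hp hq
      simp only [pos, mem_filter, mem_univ, true_and, mem_compl] at hp hq
      rcases hp.2 with h | h | h
      · exact hq.1.ne h
      · exact hq.2.1 h
      · exact hq.2.2 h
  have hc : s - r ≤ (Iᶜ).card := by
    rw [Finset.card_compl, Fintype.card_fin]
    omega
  rw [Finset.card_univ, Fintype.card_fin] at hall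
  have h4 : (s - r) * (s - r) - (s - r) ≤ (Iᶜ).card * (Iᶜ).card - (Iᶜ).card := by
    rw [← Nat.mul_sub_one, ← Nat.mul_sub_one]
    exact Nat.mul_le_mul hc (Nat.sub_le_sub_right hc 1)
  have h5 : s ≤ s * s := Nat.le_mul_self s
  have h6 : (s - r) ≤ (s - r) * (s - r) := Nat.le_mul_self _
  omega

/-- the number of symmetric matrices whose tournament has inversion number at most `r` -/
theorem card_bad_le {s r N : ℕ} (hN : ∀ I : Finset (Fin s), I.card ≤ r → (pos I).card ≤ N)
    [DecidablePred (fun H : Matrix (Fin s) (Fin s) (ZMod 2) =>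
      (∀ i j, H i j = H j i) ∧ r ∈ InvSet (Tour H))] :
    (univ.filter (fun H : Matrix (Fin s) (Fin s) (ZMod 2) =>
      (∀ i j, H i j = H j i) ∧ r ∈ InvSet (Tour H))).card ≤ (s ^ s * (2 ^ s * 2 ^ s)) * 2 ^ N := by
  classical
  let T : Finset ((Fin s → Fin s) × Finset (Fin s) × (Fin s → ZMod 2)) :=
    univ.filter (fun t => t.2.1.card ≤ r)
  have hsub : (univ.filter (fun H : Matrix (Fin s) (Fin s) (ZMod 2) =>
      (∀ i j, H i j = H j i) ∧ r ∈ InvSet (Tour H))) ⊆
      T.biUnion (fun t => univ.filter (Coded r t.1 t.2.1 t.2.2)) := by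
    intro H hH
    simp only [mem_filter, mem_univ, true_and] at hH
    obtain ⟨f, I, γ, hI, hc⟩ := exists_code hH.1 hH.2
    rw [Finset.mem_biUnion]
    exact ⟨(f, I, γ), by simpa [T] using hI, by simpa using hc⟩
  refine (Finset.card_le_card hsub).trans ?_
  refine (Finset.card_biUnion_le_card_mul T _ (2 ^ N) ?_).trans ?_
  · intro t ht
    simp only [T, mem_filter, mem_univ, true_and] at ht
    exact (card_coded_le _ _ _).trans (Nat.pow_le_pow_right (by norm_num) (hN _ ht))
  · apply Nat.mul_le_mul_right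
    refine (Finset.card_le_univ T).trans (le_of_eq ?_)
    simp [Fintype.card_prod]

end Pool.Agent.H167R3.Inv
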