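import Pool.Agent.H167R3.InvCount

set_option autoImplicit false

/-!
# Two tournaments with large inversion numbers and a dijoin with small inversion number
-/

namespace Pool.Agent.H167R3.Inv

open Finset

/-- index set of the free entries of a lower unitriangular matrix -/
abbrev Idx (s : ℕ) := {p : Fin s × Fin s // p.1 < p.2}

/-- lower unitriangular matrix with given entries below the diagonal -/
def Lm {s : ℕ} (l : Idx s → ZMod 2) : Matrix (Fin s) (Fin s) (ZMod 2) :=
  fun i j => if h : j < i then l ⟨(j, i), h⟩ else if i = j then 1 else 0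

theorem Lm_lt {s : ℕ} (l : Idx s → ZMod 2) (i j : Fin s) (h : j < i) : Lm l i j = l ⟨(j, i), h⟩ := by
  simp [Lm, h]

theorem Lm_diag {s : ℕ} (l : Idx s → ZMod 2) (i : Fin s) : Lm l i i = 1 := by
  simp [Lm]

theorem Lm_gt {s : ℕ} (l : Idx s → ZMod 2) (i j : Fin s) (h : i < j) : Lm l i j = 0 := by
  have h1 : ¬ j < i := lt_asymm h
  simp [Lm, h1, h.ne]

theorem det_Lm {s : ℕ} (l : Idx s → ZMod 2) : (Lm l).det = 1 := by
  rw [Matrix.det_of_isLowerTriangular]
  · simp [Lm_diag]
  · intro i j hij
    exact Lm_gt l i j (by simpa using hij)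

theorem unit_Lm {s : ℕ} (l : Idx s → ZMod 2) : IsUnit (Lm l).det := by
  rw [det_Lm]
  exact isUnit_one

/-- uniqueness of the factorisation `L * Lᵀ` -/
theorem chol {s : ℕ} (l l' : Idx s → ZMod 2)
    (h : Lm l * (Lm l).transpose = Lm l' * (Lm l').transpose) : l = l' := by
  have key : ∀ n : ℕ, ∀ j : Fin s, j.val = n → ∀ i : Fin s, Lm l i j = Lm l' i j := by
    intro n
    induction n using Nat.strong_induction_on with
    | _ n ih =>
      intro j hj i
      rcases lt_trichotomy i j with hij | hij | hij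
      · rw [Lm_gt _ _ _ hij, Lm_gt _ _ _ hij]
      · subst hij
        rw [Lm_diag, Lm_diag]
      · have h1 := congrFun (congrFun h i) j
        rw [Matrix.mul_apply, Matrix.mul_apply] at h1
        simp only [Matrix.transpose_apply] at h1
        have h2 : ∑ k, (Lm l i k * Lm l j k - Lm l' i k * Lm l' j k) = 0 := by
          rw [Finset.sum_sub_distrib, h1, sub_self]
        rw [Finset.sum_eq_single j] at h2
        · rw [Lm_diag, Lm_diag, mul_one, mul_one] at h2
          exact sub_eq_zero.1 h2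
        · intro k _ hk
          rcases lt_or_gt_of_ne hk with h3 | h3
          · rw [ih k.val (by rw [← hj]; exact h3) k rfl i, ih k.val (by rw [← hj]; exact h3) k rfl j,
              sub_self]
          · rw [Lm_gt _ _ _ h3, Lm_gt _ _ _ h3]
            simp
        · intro hj'
          exact absurd (Finset.mem_univ _) hj'
  funext p
  have := key _ p.1.1 rfl p.1.2
  rw [Lm_lt _ _ _ p.2, Lm_lt _ _ _ p.2] at this
  exact this

/-- the all-ones lower triangular matrix -/
def Cm (s : ℕ) : Matrix (Fin s) (Fin s) (ZMod 2) := Lm (fun _ => 1)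

theorem Cm_apply {s : ℕ} (i j : Fin s) : Cm s i j = if j ≤ i then 1 else 0 := by
  rcases lt_trichotomy i j with h | h | h
  · rw [Cm, Lm_gt _ _ _ h, if_neg (not_le.2 h)]
  · subst h
    rw [Cm, Lm_diag, if_pos le_rfl]
  · rw [Cm, Lm_lt _ _ _ h, if_pos h.le]

/-- second factor -/
noncomputable def Um {s : ℕ} (l : Idx s → ZMod 2) : Matrix (Fin s) (Fin s) (ZMod 2) :=
  (Lm l)⁻¹ * Cm s

theorem Lm_mul_Um {s : ℕ} (l : Idx s → ZMod 2) : Lm l * Um l = Cm s := by
  rw [Um, ← Matrix.mul_assoc, Matrix.mul_nonsing_inv _ (unit_Lm l), Matrix.one_mul]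

theorem second_inj {s : ℕ} (l l' : Idx s → ZMod 2)
    (h : (Um l).transpose * Um l = (Um l').transpose * Um l') : l = l' := by
  apply chol
  have hC : IsUnit (Cm s).det := unit_Lm _
  have hCt : IsUnit (Cm s).transpose.det := by rw [Matrix.det_transpose]; exact hC
  have h1 : ∀ m : Idx s → ZMod 2, (Cm s).transpose⁻¹ * ((Um m).transpose * Um m) * (Cm s)⁻¹ =
      (Lm m * (Lm m).transpose)⁻¹ := by
    intro m
    rw [Um, Matrix.transpose_mul, Matrix.mul_inv_rev, Matrix.transpose_nonsing_inv]
    calc (Cm s).transpose⁻¹ * ((Cm s).transpose * (Lm m).transpose⁻¹ * ((Lm m)⁻¹ * Cm s)) * (Cm s)⁻¹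
        = ((Cm s).transpose⁻¹ * (Cm s).transpose) * ((Lm m).transpose⁻¹ * (Lm m)⁻¹) *
            (Cm s * (Cm s)⁻¹) := by simp only [Matrix.mul_assoc]
      _ = (Lm m).transpose⁻¹ * (Lm m)⁻¹ := by
          rw [Matrix.nonsing_inv_mul _ hCt, Matrix.mul_nonsing_inv _ hC, Matrix.one_mul,
            Matrix.mul_one]
  have h2 : (Lm l * (Lm l).transpose)⁻¹ = (Lm l' * (Lm l').transpose)⁻¹ := by
    rw [← h1, ← h1, h]
  have h3 : ∀ m : Idx s → ZMod 2, IsUnit (Lm m * (Lm m).transpose).det := by
    intro m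
    rw [Matrix.det_mul, Matrix.det_transpose, det_Lm]
    simp
  have h4 := congrArg (fun M => M⁻¹) h2
  beta_reduce at h4
  rwa [Matrix.nonsing_inv_nonsing_inv _ (h3 l), Matrix.nonsing_inv_nonsing_inv _ (h3 l')] at h4

theorem card_Idx (s : ℕ) : 2 * Fintype.card (Idx s) = s * s - s := by
  have := card_lt_pairs (univ : Finset (Fin s))
  simp only [mem_univ, and_true] at this
  rw [Fintype.card_subtype, this]
  simp

/-- existence of a good pair -/
theorem exists_good {s r N : ℕ} (hN : ∀ I : Finset (Fin s), I.card ≤ r → (pos I).card ≤ N)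
    (hlt : 2 * ((s ^ s * (2 ^ s * 2 ^ s)) * 2 ^ N) < 2 ^ Fintype.card (Idx s)) :
    ∃ l : Idx s → ZMod 2, r ∉ InvSet (Tour (Lm l * (Lm l).transpose)) ∧
      r ∉ InvSet (Tour ((Um l).transpose * Um l)) := by
  classical
  by_contra hcon
  push Not at hcon
  let G : Finset (Matrix (Fin s) (Fin s) (ZMod 2)) :=
    univ.filter (fun H => (∀ i j, H i j = H j i) ∧ r ∈ InvSet (Tour H))
  have hG : G.card ≤ (s ^ s * (2 ^ s * 2 ^ s)) * 2 ^ N := card_bad_le hN
  let B1 : Finset (Idx s → ZMod 2) := univ.filter (fun l => Lm l * (Lm l).transpose ∈ G)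
  let B2 : Finset (Idx s → ZMod 2) := univ.filter (fun l => (Um l).transpose * Um l ∈ G)
  have hB1 : B1.card ≤ G.card := by
    apply Finset.card_le_card_of_injOn (fun l => Lm l * (Lm l).transpose)
    · intro l hl
      simpa [B1] using hl
    · intro l _ l' _ h
      exact chol l l' h
  have hB2 : B2.card ≤ G.card := by
    apply Finset.card_le_card_of_injOn (fun l => (Um l).transpose * Um l)
    · intro l hl
      simpa [B2] using hl
    · intro l _ l' _ h
      exact second_inj l l' h
  have hsym1 : ∀ l : Idx s → ZMod 2, ∀ i j, (Lm l * (Lm l).transpose) i j =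
      (Lm l * (Lm l).transpose) j i := by
    intro l i j
    simp only [Matrix.mul_apply, Matrix.transpose_apply]
    exact Finset.sum_congr rfl fun k _ => mul_comm _ _
  have hsym2 : ∀ l : Idx s → ZMod 2, ∀ i j, ((Um l).transpose * Um l) i j =
      ((Um l).transpose * Um l) j i := by
    intro l i j
    simp only [Matrix.mul_apply, Matrix.transpose_apply]
    exact Finset.sum_congr rfl fun k _ => mul_comm _ _
  have hcov : (univ : Finset (Idx s → ZMod 2)) ⊆ B1 ∪ B2 := by
    intro l _
    rw [Finset.mem_union]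
    by_cases h : r ∈ InvSet (Tour (Lm l * (Lm l).transpose))
    · left
      simp only [B1, G, mem_filter, mem_univ, true_and]
      exact ⟨hsym1 l, h⟩
    · right
      simp only [B2, G, mem_filter, mem_univ, true_and]
      exact ⟨hsym2 l, hcon l h⟩
  have h1 := Finset.card_le_card hcov
  rw [Finset.card_univ, Fintype.card_fun, ZMod.card] at h1
  have h2 := Finset.card_union_le B1 B2
  omega

/-- the join relation on the sigma type -/
def JoinRel {s : ℕ} (A B : Fin s → Fin s → Prop) (u v : Fin 2 × Fin s) : Prop :=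
  u.1 < v.1 ∨ (u.1 = 0 ∧ v.1 = 0 ∧ A u.2 v.2) ∨ (u.1 = 1 ∧ v.1 = 1 ∧ B u.2 v.2)

/-- the dijoin of the two tournaments is made acyclic by `s` inversions -/
theorem join_mem {s : ℕ} {W : Type} (x y : Fin s → Fin s → ZMod 2)
    (hxy : ∀ i j, dot (x i) (y j) = if j ≤ i then 1 else 0)
    (p : W → Fin 2) (q : W → Fin s) (A B : Fin s → Fin s → Prop) (R : W → W → Prop)
    (hA : ∀ i j, A i j → (i < j ∧ dot (x i) (x j) = 0) ∨ (j < i ∧ dot (x i) (x j) = 1))
    (hB : ∀ i j, B i j → (i < j ∧ dot (y i) (y j) = 0) ∨ (j < i ∧ dot (y i) (y j) = 1))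
    (hR : ∀ u v, R u v → p u < p v ∨ (p u = 0 ∧ p v = 0 ∧ A (q u) (q v)) ∨
      (p u = 1 ∧ p v = 1 ∧ B (q u) (q v))) : s ∈ InvSet R := by
  refine mem_of_wit (z := fun w => if p w = 0 then x (q w) else y (q w))
    (f := fun w => if p w = 0 then 2 * (q w).val + 1 else 2 * (q w).val) ?_
  intro u v huv
  have hp : ∀ w, p w = 0 ∨ p w = 1 := by
    intro w
    have : ∀ t : Fin 2, t = 0 ∨ t = 1 := by decide
    exact this _
  beta_reduce at huv ⊢
  have h01 : ((1 : Fin 2) = 0) = False := by simp
  rcases hp u with hu | hu <;> rcases hp v with hv | hv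
  · rw [hu, hv] at huv
    simp only [if_true] at huv
    rw [hu, hv]
    simp only [if_true]
    have h1 : (q u).val < (q v).val := by
      rcases huv with ⟨h1, h2⟩ | ⟨h1, h2⟩
      · rcases hR _ _ h1 with h3 | ⟨_, _, h3⟩ | ⟨h3, _, _⟩
        · rw [hu, hv] at h3
          exact absurd h3 (lt_irrefl _)
        · rcases hA _ _ h3 with ⟨h4, h5⟩ | ⟨h4, h5⟩
          · exact h4
          · rw [h2] at h5
            exact absurd h5 (by decide)
        · rw [hu] at h3
          exact absurd h3 (by decide)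
      · rcases hR _ _ h1 with h3 | ⟨_, _, h3⟩ | ⟨h3, _, _⟩
        · rw [hu, hv] at h3
          exact absurd h3 (lt_irrefl _)
        · rcases hA _ _ h3 with ⟨h4, h5⟩ | ⟨h4, h5⟩
          · rw [dot_comm, h2] at h5
            exact absurd h5 (by decide)
          · exact h4
        · rw [hv] at h3
          exact absurd h3 (by decide)
    omega
  · rw [hu, hv] at huv
    simp only [if_true, h01, if_false] at huv
    rw [hu, hv]
    simp only [if_true, h01, if_false]
    rw [hxy] at huv
    rcases huv with ⟨_, h2⟩ | ⟨h1, _⟩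
    · have h3 : ¬ (q v ≤ q u) := by
        intro h
        rw [if_pos h] at h2
        exact absurd h2 (by decide)
      have h4 := not_le.1 h3
      have h5 : (q u).val < (q v).val := h4
      omega
    · exfalso
      rcases hR _ _ h1 with h3 | ⟨h3, _, _⟩ | ⟨_, h3, _⟩
      · rw [hu, hv] at h3
        exact absurd h3 (by decide)
      · rw [hv] at h3
        exact absurd h3 (by decide)
      · rw [hu] at h3
        exact absurd h3 (by decide)
  · rw [hu, hv] at huv
    simp only [if_true, h01, if_false] at huv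
    rw [hu, hv]
    simp only [if_true, h01, if_false]
    rw [dot_comm, hxy] at huv
    rcases huv with ⟨h1, _⟩ | ⟨_, h2⟩
    · exfalso
      rcases hR _ _ h1 with h3 | ⟨h3, _, _⟩ | ⟨_, h3, _⟩
      · rw [hu, hv] at h3
        exact absurd h3 (by decide)
      · rw [hu] at h3
        exact absurd h3 (by decide)
      · rw [hv] at h3
        exact absurd h3 (by decide)
    · have h3 : q u ≤ q v := by
        by_contra h
        rw [if_neg h] at h2
        exact absurd h2 (by decide)
      have h5 : (q u).val ≤ (q v).val := h3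
      omega
  · rw [hu, hv] at huv
    simp only [h01, if_false] at huv
    rw [hu, hv]
    simp only [h01, if_false]
    have h1 : (q u).val < (q v).val := by
      rcases huv with ⟨h1, h2⟩ | ⟨h1, h2⟩
      · rcases hR _ _ h1 with h3 | ⟨h3, _, _⟩ | ⟨_, _, h3⟩
        · rw [hu, hv] at h3
          exact absurd h3 (lt_irrefl _)
        · rw [hu] at h3
          exact absurd h3 (by decide)
        · rcases hB _ _ h3 with ⟨h4, h5⟩ | ⟨h4, h5⟩
          · exact h4
          · rw [h2] at h5
            exact absurd h5 (by decide)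
      · rcases hR _ _ h1 with h3 | ⟨h3, _, _⟩ | ⟨_, _, h3⟩
        · rw [hu, hv] at h3
          exact absurd h3 (lt_irrefl _)
        · rw [hv] at h3
          exact absurd h3 (by decide)
        · rcases hB _ _ h3 with ⟨h4, h5⟩ | ⟨h4, h5⟩
          · rw [dot_comm, h2] at h5
            exact absurd h5 (by decide)
          · exact h4
    omega

/-- There are oriented graphs `A`, `B` on `s` vertices, both with inversion number exactly `r + 1`, and
vectors showing that their dijoin has inversion number at most `s`. -/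
theorem exists_pair (s r N c : ℕ) (hN : s * s + s + (s - r) ≤ 2 * N + (s - r) * (s - r) + 1)
    (hc : 2 * c = s * s - s)
    (hlt : 2 * ((s ^ s * (2 ^ s * 2 ^ s)) * 2 ^ N) < 2 ^ c) :
    ∃ (A B : Fin s → Fin s → Prop) (x y : Fin s → Fin s → ZMod 2),
    (∀ u v, A u v → ¬ A v u) ∧ (∀ u v, B u v → ¬ B v u) ∧
    sInf (InvSet A) = r + 1 ∧ sInf (InvSet B) = r + 1 ∧
    (∀ i j, dot (x i) (y j) = if j ≤ i then 1 else 0) ∧
    (∀ i j, A i j → (i < j ∧ dot (x i) (x j) = 0) ∨ (j < i ∧ dot (x i) (x j) = 1)) ∧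
    (∀ i j, B i j → (i < j ∧ dot (y i) (y j) = 0) ∨ (j < i ∧ dot (y i) (y j) = 1)) := by
  have hcard : Fintype.card (Idx s) = c := by
    have := card_Idx s
    omega
  obtain ⟨l, h1, h2⟩ := exists_good (s := s) (r := r) (N := N) (fun I hI => by
    have := card_pos_le I hI
    omega) (by rw [hcard]; exact hlt)
  have hs1 : ∀ i j, (Lm l * (Lm l).transpose) i j = (Lm l * (Lm l).transpose) j i := by
    intro i j
    simp only [Matrix.mul_apply, Matrix.transpose_apply]
    exact Finset.sum_congr rfl fun k _ => mul_comm _ _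
  have hs2 : ∀ i j, ((Um l).transpose * Um l) i j = ((Um l).transpose * Um l) j i := by
    intro i j
    simp only [Matrix.mul_apply, Matrix.transpose_apply]
    exact Finset.sum_congr rfl fun k _ => mul_comm _ _
  obtain ⟨A, hA, hA'⟩ := exists_sub _ (tour_asymm hs1) r h1
  obtain ⟨B, hB, hB'⟩ := exists_sub _ (tour_asymm hs2) r h2
  refine ⟨A, B, fun i k => Lm l i k, fun j k => Um l k j,
    fun u v h h' => tour_asymm hs1 _ _ (hA _ _ h) (hA _ _ h'),
    fun u v h h' => tour_asymm hs2 _ _ (hB _ _ h) (hB _ _ h'), hA', hB', ?_, ?_, ?_⟩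
  · intro i j
    have := congrFun (congrFun (Lm_mul_Um l) i) j
    rw [Matrix.mul_apply, Cm_apply] at this
    exact this
  · intro i j h
    have := hA i j h
    rw [Tour, Matrix.mul_apply] at this
    exact this
  · intro i j h
    have := hB i j h
    rw [Tour, Matrix.mul_apply] at this
    exact this

theorem numeric (a s N c : ℕ) (hs : s = 2 ^ a) (h : 1 + a * s + 2 * s + N < c) :
    2 * ((s ^ s * (2 ^ s * 2 ^ s)) * 2 ^ N) < 2 ^ c := by
  have h1 : s ^ s = 2 ^ (a * s) := by
    calc s ^ s = (2 ^ a) ^ s := by rw [← hs]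
      _ = 2 ^ (a * s) := by rw [← pow_mul]
  have h2 : 2 * ((s ^ s * (2 ^ s * 2 ^ s)) * 2 ^ N) = 2 ^ (1 + a * s + 2 * s + N) := by
    rw [h1]
    ring
  rw [h2]
  exact Nat.pow_lt_pow_right (by norm_num) h

end Pool.Agent.H167R3.Inv
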